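import Mathlib
import Pool.Agent.TH310.Cor.Red
import Pool.Agent.Y263.GF.Alg
import Pool.Agent.W721.Cor.Mv
import Pool.Agent.W732.Cor.All
import Pool.Agent.Helper85K9.Cor.Cell

/-!
Automorphisms of the ball: a fixed point at the centre makes them linear, and the first coordinate
of an automorphism has affine fibres.
-/

set_option autoImplicit false

open Metric Set Filter Topology

namespace Pool.Agent.Helper59K9.Cor

open Pool.Agent.TH310.Cor (V HB Aut Lo HB_Lo aut_mv Aut.symm Aut.comp)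
open Pool.Agent.W732.Cor (mv t_mv)
open Pool.Agent.Y263.GF (AF frac_AF)
open Pool.Agent.Helper85K9.Cor (One)

variable {m : ℕ}

theorem aut_norm {L L' : V m → V m} (h : Aut L L') (h0 : L 0 = 0) {z : V m}
    (hz : z ∈ ball (0 : V m) 1) : ‖L z‖ = ‖z‖ := by
  have h00 : (0 : V m) ∈ ball (0 : V m) 1 := mem_ball_self one_pos
  have h0' : L' 0 = 0 := by
    have := h.i1 0 h00
    rwa [h0] at this
  have e1 := Complex.norm_le_norm_of_mapsTo_ball h.d1
    (h.m1.mono_right ball_subset_closedBall) h0 (mem_ball_zero_iff.1 hz)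
  have e2 := Complex.norm_le_norm_of_mapsTo_ball h.d2
    (h.m2.mono_right ball_subset_closedBall) h0' (mem_ball_zero_iff.1 (h.m1 hz))
  rw [h.i1 z hz] at e2
  exact le_antisymm e1 e2

/-- Cartan: automorphisms which fix the centre are linear -/
theorem aut_linear {L L' : V m → V m} (h : Aut L L') (h0 : L 0 = 0) :
    ∃ D : V m →L[ℂ] V m, ∀ z ∈ ball (0 : V m) 1, L z = D z := by
  refine ⟨fderiv ℂ L 0, fun z hz => ?_⟩
  have h00 : (0 : V m) ∈ ball (0 : V m) 1 := mem_ball_self one_pos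
  by_cases hz0 : z = 0
  · rw [hz0, h0, map_zero]
  have hn : ‖z‖ ≠ 0 := norm_ne_zero_iff.2 hz0
  have hnp : 0 < ‖z‖ := norm_pos_iff.2 hz0
  obtain ⟨e, he⟩ : ∃ e : V m, e = ((‖z‖ : ℝ) : ℂ)⁻¹ • z := ⟨_, rfl⟩
  have hne : ‖e‖ = 1 := by
    rw [he, norm_smul, norm_inv, Complex.norm_real, norm_norm, inv_mul_cancel₀ hn]
  have hze : z = ((‖z‖ : ℝ) : ℂ) • e := by
    rw [he, smul_smul, mul_inv_cancel₀ (by exact_mod_cast hn), one_smul]
  have hmaps : MapsTo (fun s : ℂ => s • e) (ball (0 : ℂ) 1) (ball (0 : V m) 1) := by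
    intro s hs
    rw [mem_ball_zero_iff] at hs ⊢
    rw [norm_smul, hne, mul_one]
    exact hs
  have hsd : Differentiable ℂ (fun s : ℂ => s • e) := by fun_prop
  obtain ⟨g, hg⟩ : ∃ g : ℂ → V m, g = fun s => L (s • e) := ⟨_, rfl⟩
  have hgd : DifferentiableOn ℂ g (ball (0 : ℂ) 1) := by
    rw [hg]
    exact h.d1.comp hsd.differentiableOn hmaps
  have hg0 : g 0 = 0 := by rw [hg]; simp [h0]
  have hgm : MapsTo g (ball (0 : ℂ) 1) (closedBall (g 0) 1) := by
    rw [hg0, hg]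
    exact fun s hs => ball_subset_closedBall (h.m1 (hmaps hs))
  have hzb : ((‖z‖ : ℝ) : ℂ) ∈ ball (0 : ℂ) 1 := by
    rw [mem_ball_zero_iff, Complex.norm_real, norm_norm]
    exact mem_ball_zero_iff.1 hz
  have hzc : ((‖z‖ : ℝ) : ℂ) ≠ 0 := by exact_mod_cast hn
  have hslope : ‖dslope g 0 ((‖z‖ : ℝ) : ℂ)‖ = 1 / 1 := by
    rw [dslope_of_ne _ hzc, slope_def_module, hg0, sub_zero, sub_zero, norm_smul, norm_inv]
    have h1 : g ((‖z‖ : ℝ) : ℂ) = L z := by
      rw [hg]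
      beta_reduce
      rw [← hze]
    rw [h1, aut_norm h h0 hz, Complex.norm_real, norm_norm, inv_mul_cancel₀ hn, div_one]
  have haff := Complex.affine_of_mapsTo_ball_of_norm_dslope_eq_div (R₂ := 1) hgd hgm hzb hslope
  obtain ⟨C, hC⟩ : ∃ C : V m, C = dslope g 0 ((‖z‖ : ℝ) : ℂ) := ⟨_, rfl⟩
  have haff' : ∀ s ∈ ball (0 : ℂ) 1, g s = s • C := by
    intro s hs
    have := haff hs
    simpa [hg0, hC] using this
  have hder : deriv g 0 = C := by
    have h1 : g =ᶠ[𝓝 0] fun s => s • C := by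
      filter_upwards [isOpen_ball.mem_nhds (mem_ball_self (x := (0 : ℂ)) one_pos)] with s hs
      exact haff' s hs
    rw [h1.deriv_eq]
    have h2 : HasDerivAt (fun s : ℂ => s • C) ((1 : ℂ) • C) 0 := (hasDerivAt_id 0).smul_const C
    rw [h2.deriv, one_smul]
  have hder2 : deriv g 0 = fderiv ℂ L 0 e := by
    have h1 : HasFDerivAt L (fderiv ℂ L 0) ((0 : ℂ) • e) := by
      rw [zero_smul]
      exact (h.d1.differentiableAt (isOpen_ball.mem_nhds h00)).hasFDerivAt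
    have h2 : HasDerivAt (fun s : ℂ => s • e) ((1 : ℂ) • e) 0 := (hasDerivAt_id 0).smul_const e
    have h3 := h1.comp_hasDerivAt (0 : ℂ) h2
    rw [one_smul] at h3
    rw [hg]
    exact h3.deriv
  have h1 : L z = g ((‖z‖ : ℝ) : ℂ) := by
    rw [hg]
    beta_reduce
    rw [← hze]
  rw [h1, haff' _ hzb, ← hder, hder2, ← map_smul, ← hze]

theorem AF.congr' {X : Type} [NormedAddCommGroup X] [InnerProductSpace ℂ X] {f g : X → ℂ}
    (hf : AF (ball (0 : X) 1) f) (h : ∀ z ∈ ball (0 : X) 1, g z = f z) :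
    AF (ball (0 : X) 1) g := by
  refine ⟨hf.diff.congr h, fun z hz z' hz' => ?_⟩
  have h1 : g =ᶠ[𝓝 z] f := by
    filter_upwards [isOpen_ball.mem_nhds hz] with x hx
    exact h x hx
  rw [h1.fderiv_eq, h z hz, h z' hz']
  exact hf.fib z hz z' hz'

/-- the automorphisms of the ball are linear fractional -/
theorem aut_frac {Φ Φ' : V m → V m} (h : Aut Φ Φ') :
    ∃ (D : V m →L[ℂ] V m) (p : V m) (a : ℂ), ‖a‖ < 1 ∧ ((∀ z ∈ ball (0 : V m) 1, Φ z = D z) ∨
      (‖p‖ = 1 ∧ ∀ z ∈ ball (0 : V m) 1, Φ z = D (mv p a z))) := by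
  have h00 : (0 : V m) ∈ ball (0 : V m) 1 := mem_ball_self one_pos
  obtain ⟨b, hb⟩ : ∃ b, b = Φ' 0 := ⟨_, rfl⟩
  have hbb : b ∈ ball (0 : V m) 1 := by rw [hb]; exact h.m2 h00
  have hΦb : Φ b = 0 := by rw [hb]; exact h.i2 0 h00
  by_cases hb0 : b = 0
  · rw [hb0] at hΦb
    obtain ⟨D, hD⟩ := aut_linear h hΦb
    exact ⟨D, 0, 0, by simp, Or.inl hD⟩
  · have hn : ‖b‖ ≠ 0 := norm_ne_zero_iff.2 hb0
    have hnc : ((‖b‖ : ℝ) : ℂ) ≠ 0 := by exact_mod_cast hn
    obtain ⟨p, hp⟩ : ∃ p : V m, p = ((‖b‖ : ℝ) : ℂ)⁻¹ • b := ⟨_, rfl⟩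
    have hp1 : ‖p‖ = 1 := by
      rw [hp, norm_smul, norm_inv, Complex.norm_real, norm_norm, inv_mul_cancel₀ hn]
    have hbp : b = ((‖b‖ : ℝ) : ℂ) • p := by
      rw [hp, smul_smul, mul_inv_cancel₀ hnc, one_smul]
    have ha : ((‖b‖ : ℝ) : ℂ) ∈ ball (0 : ℂ) 1 := by
      rw [mem_ball_zero_iff, Complex.norm_real, norm_norm]
      exact mem_ball_zero_iff.1 hbb
    have hA := aut_mv t_mv hp1 ha
    have hL := h.comp hA
    have hmv0 : mv p ((‖b‖ : ℝ) : ℂ) 0 = b := by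
      unfold mv
      rw [inner_zero_right, zero_smul, sub_zero, smul_zero, add_zero, mul_zero, add_zero, div_one,
        one_smul, zero_add, ← hbp]
    have hL0 : Φ (mv p ((‖b‖ : ℝ) : ℂ) 0) = 0 := by rw [hmv0, hΦb]
    obtain ⟨D, hD⟩ := aut_linear hL hL0
    refine ⟨D, p, -((‖b‖ : ℝ) : ℂ), ?_, Or.inr ⟨hp1, fun z hz => ?_⟩⟩
    · rw [norm_neg]
      exact mem_ball_zero_iff.1 ha
    · have h1 := hD _ (hA.m2 hz)
      rw [hA.i2 z hz] at h1
      exact h1

/-- coordinates of automorphisms have affine fibres -/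
theorem aut_AF (q : V m) {Φ Φ' : V m → V m} (h : Aut Φ Φ') :
    AF (ball (0 : V m) 1) (fun z => (inner ℂ q (Φ z) : ℂ)) := by
  obtain ⟨D, p, a, ha, h1 | ⟨hp, h1⟩⟩ := aut_frac h
  · have h2 := frac_AF ((innerSL ℂ q).comp D) 0 0 1 (fun z _ => by simp)
    refine AF.congr' h2 (fun z hz => ?_)
    rw [h1 z hz]
    simp
  · have hden : ∀ z ∈ ball (0 : V m) 1,
        (starRingEnd ℂ a • innerSL ℂ p : V m →L[ℂ] ℂ) z + 1 ≠ 0 := by
      intro z hz
      have h3 := Pool.Agent.W721.Cor.Mv.den_ne ha (Pool.Agent.W721.Cor.Mv.inner_lt hp hz)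
      simp only [smul_apply, innerSL_apply_apply, smul_eq_mul]
      rw [add_comm]
      exact h3
    have h2 := frac_AF ((inner ℂ q (D p) : ℂ) • innerSL ℂ p + ((√(1 - ‖a‖ ^ 2) : ℝ) : ℂ) •
      ((innerSL ℂ q).comp D - (inner ℂ q (D p) : ℂ) • innerSL ℂ p))
      (starRingEnd ℂ a • innerSL ℂ p) (a * inner ℂ q (D p)) 1 hden
    refine AF.congr' h2 (fun z hz => ?_)
    rw [h1 z hz]
    unfold mv
    simp only [add_apply, smul_apply, sub_apply, innerSL_apply_apply, smul_eq_mul, map_smul,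
      map_add, map_sub, inner_smul_right, inner_add_right, inner_sub_right,
      ContinuousLinearMap.comp_apply]
    rw [add_comm (1 : ℂ)]
    ring

/-- functions `Lo q ∘ Φ` are functions of one variable -/
theorem lo_one {q : V m} (hq : ‖q‖ = 1) {Φ Φ' : V m → V m} (h : Aut Φ Φ') :
    One (fun z => Lo q (Φ z)) := by
  refine ⟨fun w => (1 - w) / 2, fun z => inner ℂ q (Φ z), aut_AF q h, fun z hz => ?_, ?_,
    fun w hw => ?_, fun z _ => rfl⟩
  · exact Pool.Agent.W732.Cor.inner_le q _ hq (mem_ball_zero_iff.1 (h.m1 hz))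
  · exact ((differentiable_id.const_sub (1 : ℂ)).div_const 2).differentiableOn
  · rw [mem_ball_zero_iff] at hw
    rw [norm_div, show ‖(2 : ℂ)‖ = 2 by norm_num, div_le_one (by norm_num)]
    have := norm_sub_le (1 : ℂ) w
    rw [norm_one] at this
    linarith

end Pool.Agent.Helper59K9.Cor
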