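import Mathlib
import Pool.Agent.TH310.Cor.Step
import Pool.Agent.Helper59K9.Cor.Cartan

/-!
The reduction step, with information on the distance from the geodesic.
-/

set_option autoImplicit false

open Metric Set Filter Topology WeakDual

namespace Pool.Agent.Helper59K9.Cor

open Pool.Agent.TH310.Cor
open Pool.Agent.H326R3.CB (Bt)
open Pool.Agent.W732.Cor (mv S_mv S_ball t_mv t_ball)
open Pool.Agent.W721.Cor.Mv (inner_mv perp_mv norm_dec lemA den_ne inner_lt)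

variable {m : ℕ}

/-- `z` is far from the complex geodesic of `p` -/
def Far (p : V m) (s : ℝ) (z : V m) : Prop :=
  1 - ‖z‖ ^ 2 < s * (1 - ‖(inner ℂ p z : ℂ)‖ ^ 2)

theorem far_mv {p : V m} (hp : ‖p‖ = 1) {a : ℂ} (ha : ‖a‖ < 1) {s : ℝ} {z : V m}
    (hz : z ∈ ball (0 : V m) 1) (h : Far p s z) : Far p s (mv p a z) := by
  have hx := inner_lt hp hz
  have hden := den_ne ha hx
  have ha2 : 0 < 1 - ‖a‖ ^ 2 := by nlinarith [norm_nonneg a]
  have hD : 0 < ‖1 + starRingEnd ℂ a * inner ℂ p z‖ ^ 2 := by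
    have := norm_pos_iff.mpr hden
    positivity
  have h3 := lemA a (inner ℂ p z)
  have h4 : ‖((√(1 - ‖a‖ ^ 2) : ℝ) : ℂ)‖ ^ 2 = 1 - ‖a‖ ^ 2 := by
    rw [Complex.norm_real, Real.norm_eq_abs, sq_abs, Real.sq_sqrt ha2.le]
  have h1 := norm_dec hp z
  have h2 := norm_dec hp (mv p a z)
  rw [perp_mv hp, inner_mv hp, norm_smul, norm_div, norm_div, mul_pow, div_pow, div_pow, h4] at h2
  have e1 : 1 - ‖mv p a z‖ ^ 2 = (1 - ‖a‖ ^ 2) * (1 - ‖z‖ ^ 2) /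
      ‖1 + starRingEnd ℂ a * inner ℂ p z‖ ^ 2 := by
    rw [h2]
    generalize ‖1 + starRingEnd ℂ a * inner ℂ p z‖ ^ 2 = D at hD h3 ⊢
    rw [eq_div_iff hD.ne', sub_mul, add_mul, div_mul_cancel₀ _ hD.ne', mul_right_comm,
      div_mul_cancel₀ _ hD.ne']
    linear_combination h3 + (1 - ‖a‖ ^ 2) * h1
  have e2 : 1 - ‖(inner ℂ p (mv p a z) : ℂ)‖ ^ 2 = (1 - ‖a‖ ^ 2) *
      (1 - ‖(inner ℂ p z : ℂ)‖ ^ 2) / ‖1 + starRingEnd ℂ a * inner ℂ p z‖ ^ 2 := by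
    rw [inner_mv hp, norm_div, div_pow]
    generalize ‖1 + starRingEnd ℂ a * inner ℂ p z‖ ^ 2 = D at hD h3 ⊢
    rw [eq_div_iff hD.ne', sub_mul, div_mul_cancel₀ _ hD.ne']
    linear_combination h3
  unfold Far at h ⊢
  rw [e1, e2, ← mul_div_assoc, div_lt_div_iff_of_pos_right hD]
  nlinarith

theorem far_near (p : V m) (hp : ‖p‖ = 1) {q : V m} (hq : ‖q‖ = 1)
    (hpq : (inner ℂ p q : ℂ) = 0) {s : ℝ} (hs : 0 < s) :
    ∃ ρ : ℝ, 0 < ρ ∧ ∀ z ∈ ball (0 : V m) 1, ‖z - q‖ < ρ → Far p s z := by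
  refine ⟨min (1 / 2) (s / 4), by positivity, fun z hz hzq => ?_⟩
  have h1 : ‖z - q‖ < 1 / 2 := hzq.trans_le (min_le_left _ _)
  have h2 : ‖z - q‖ < s / 4 := hzq.trans_le (min_le_right _ _)
  have h3 : ‖(inner ℂ p z : ℂ)‖ ≤ ‖z - q‖ := by
    have h4 : (inner ℂ p z : ℂ) = inner ℂ p (z - q) := by rw [inner_sub_right, hpq, sub_zero]
    rw [h4]
    refine (norm_inner_le_norm p _).trans ?_
    rw [hp, one_mul]
  have h5 : 1 - ‖z - q‖ ≤ ‖z‖ := by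
    have := norm_sub_norm_le q z
    rw [norm_sub_rev, hq] at this
    linarith
  have h6 : ‖(inner ℂ p z : ℂ)‖ ^ 2 ≤ 1 / 4 := by
    nlinarith [norm_nonneg (inner ℂ p z : ℂ)]
  unfold Far
  have h7 : (1 - ‖z - q‖) ^ 2 ≤ ‖z‖ ^ 2 := by
    apply pow_le_pow_left₀ (by linarith) h5
  nlinarith [norm_nonneg (z - q)]

/-- **Reduction step.** -/
theorem step2 {p : V m} (hp : ‖p‖ = 1) {I ι : Type} [Fintype ι]
    {A : I → ι → V m → ℂ} {b : I → V m → ℂ} (hA : ∀ i j, HB (A i j))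
    (hb : ∀ i, HB (b i)) (ψ φ : I → V m → V m) (hψ : ∀ i, Aut (ψ i) (φ i))
    (r : V m → ℝ → ℝ) (hr : ∀ q ε, 0 < ε → 0 < r q ε)
    (hsc : ∀ i, SCr p r (fun z => b i (φ i z)))
    {δ : ℝ} (hδ : 0 < δ)
    (hlow : ∀ i, ∀ z ∈ ball (0 : V m) 1, δ ≤ ∑ j, ‖A i j z‖ + ‖b i z‖)
    (hns : ¬ Solv (fun i => Sum.elim (A i) (fun _ : Unit => b i)))
    {η s : ℝ} (hη : 0 < η) (hs : 0 < s) :
    ∃ (J : Type) (n : J → I) (θ θ' : J → V m → V m) (q : V m) (ρ : ℝ), 0 < ρ ∧ ‖q‖ = 1 ∧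
      (∀ l, Aut (θ l) (θ' l)) ∧
      (∀ l, ∀ z ∈ ball (0 : V m) 1, ‖z - q‖ < ρ →
        ‖b (n l) (θ l z)‖ ≤ η ∧ Far p s (ψ (n l) (θ l z))) ∧
      ¬ Solv (fun (l : J) (o : ι ⊕ Unit) (z : V m) =>
        o.elim (fun j => A (n l) j (θ l z)) (fun _ => Lo q z)) := by
  classical
  have hmv := t_mv
  have hball := t_ball
  -- transport
  have h1 : ¬ Solv (fun i (o : ι ⊕ Unit) (z : V m) =>
      Sum.elim (A i) (fun _ : Unit => b i) o (φ i z)) :=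
    fun h => hns (Solv.comp hψ h)
  have hF1 : ∀ i (o : ι ⊕ Unit), HB (fun z => Sum.elim (A i) (fun _ : Unit => b i) o (φ i z)) := by
    intro i o
    rcases o with j | j
    · exact (hA i j).comp (hψ i).symm
    · exact (hb i).comp (hψ i).symm
  have h2 := slice hmv hball hp hF1 h1
  -- the new index set
  let tJ : TopologicalSpace (I × ball (0 : ℂ) 1) := ⊥
  have dJ : DiscreteTopology (I × ball (0 : ℂ) 1) := ⟨rfl⟩
  have hmvx : ∀ x : I × ball (0 : ℂ) 1, Aut (mv p x.2) (mv p (-(x.2 : ℂ))) :=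
    fun x => aut_mv hmv hp x.2.2
  have hF2 : ∀ (x : I × ball (0 : ℂ) 1) (o : (ι ⊕ Unit) ⊕ Unit),
      HB (fun z => o.elim (fun j => Sum.elim (A x.1) (fun _ : Unit => b x.1) j
        (φ x.1 (mv p x.2 z))) (fun _ => inner ℂ p z)) := by
    intro x o
    rcases o with o | o
    · exact (hF1 x.1 o).comp (hmvx x)
    · exact HB_inner hp
  obtain ⟨χ, hχ⟩ := exists_zero hF2 h2
  obtain ⟨q, hq⟩ : ∃ q, q = pt χ := ⟨_, rfl⟩
  -- families
  have hA2 : ∀ (x : I × ball (0 : ℂ) 1) (j : ι), HB (fun z => A x.1 j (φ x.1 (mv p x.2 z))) :=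
    fun x j => hF2 x (Sum.inl (Sum.inl j))
  have hB2 : ∀ (x : I × ball (0 : ℂ) 1), HB (fun z => b x.1 (φ x.1 (mv p x.2 z))) :=
    fun x => hF2 x (Sum.inl (Sum.inr ()))
  have hχA : ∀ j : ι, χ (El (f := fun x z => A x.1 j (φ x.1 (mv p x.2 z)))
      (fun x => hA2 x j)) = 0 := fun j => hχ (Sum.inl (Sum.inl j))
  have hχB : χ (El (f := fun x z => b x.1 (φ x.1 (mv p x.2 z)))
      (fun x => hB2 x)) = 0 := hχ (Sum.inl (Sum.inr ()))
  have hpq : (inner ℂ p q : ℂ) = 0 := by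
    have h3 := char_Lw χ p
    have h4 : (Lw p : HI (I × ball (0 : ℂ) 1) m) =
        El (f := fun _ z => (inner ℂ p z : ℂ)) (fun x => HB_inner hp) := ext' fun x => rfl
    have h5 : χ (El (I := I × ball (0 : ℂ) 1) (f := fun _ z => (inner ℂ p z : ℂ))
      (fun x => HB_inner hp)) = 0 := hχ (Sum.inr ())
    rw [h4, h5] at h3
    rw [hq]
    exact h3.symm
  have hlow2 : ∀ (x : I × ball (0 : ℂ) 1), ∀ z ∈ ball (0 : V m) 1,
      δ ≤ ∑ j, ‖A x.1 j (φ x.1 (mv p x.2 z))‖ + ‖b x.1 (φ x.1 (mv p x.2 z))‖ :=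
    fun x z hz => hlow x.1 _ ((hψ x.1).m2 ((hmvx x).m1 hz))
  -- the point is on the sphere
  have hq1 : ‖q‖ = 1 := by
    rcases lt_or_eq_of_le (pt_norm χ) with h3 | h3
    · exfalso
      have hpt : pt χ ∈ ball (0 : V m) 1 := by rw [mem_ball_zero_iff]; exact h3
      refine char_index (ι := ι ⊕ Unit) χ
        (fun o x => Sum.elim (A x.1) (fun _ : Unit => b x.1) o (φ x.1 (mv p x.2 (pt χ)))) (C := 1)
        (fun o x => (hF2 x (Sum.inl o)).2 _ hpt) hδ ?_ ?_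
      · intro x
        rw [Fintype.sum_sum_type]
        have := hlow2 x _ hpt
        simpa using this
      · intro o
        have h4 := char_interior χ h3 (El (f := fun x z => Sum.elim (A x.1) (fun _ : Unit => b x.1) o
          (φ x.1 (mv p x.2 z))) (fun x => hF2 x (Sum.inl o)))
        have h5 : χ (El (f := fun (x : I × ball (0 : ℂ) 1) z => Sum.elim (A x.1)
          (fun _ : Unit => b x.1) o
          (φ x.1 (mv p x.2 z))) (fun x => hF2 x (Sum.inl o))) = 0 := hχ (Sum.inl o)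
        rw [h5] at h4
        refine Eq.trans (congrArg χ ?_) h4.symm
        exact ext' fun x => rfl
    · rw [hq]; exact h3
  -- elimination
  obtain ⟨ε, hε⟩ : ∃ ε : ℝ, ε = η / 3 := ⟨_, rfl⟩
  have hε0 : 0 < ε := by rw [hε]; positivity
  obtain ⟨ρ₀, hρ₀, hfar⟩ := far_near p hp hq1 hpq hs
  obtain ⟨ρ, hρ⟩ : ∃ ρ : ℝ, ρ = min (min (r q ε) 1) ρ₀ := ⟨_, rfl⟩
  have hρ0 : 0 < ρ := by rw [hρ]; exact lt_min (lt_min (hr q ε hε0) one_pos) hρ₀
  have hρr : ρ ≤ r q ε := by rw [hρ]; exact (min_le_left _ _).trans (min_le_left _ _)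
  have hρ1 : ρ ≤ 1 := by rw [hρ]; exact (min_le_left _ _).trans (min_le_right _ _)
  have hρf : ρ ≤ ρ₀ := by rw [hρ]; exact min_le_right _ _
  obtain ⟨w0, hw0⟩ : ∃ w0 : V m, w0 = ((1 - ρ / 2 : ℝ) : ℂ) • q := ⟨_, rfl⟩
  have hw0b : w0 ∈ ball (0 : V m) 1 := by
    rw [mem_ball_zero_iff, hw0, norm_smul, hq1, Complex.norm_real, Real.norm_of_nonneg (by linarith)]
    linarith
  have hw0q : ‖w0 - q‖ < ρ := by
    have h3 : w0 - q = (-(ρ / 2 : ℝ) : ℂ) • q := by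
      rw [hw0]
      push_cast
      module
    rw [h3, norm_smul, hq1, norm_neg, Complex.norm_real, Real.norm_of_nonneg (by linarith)]
    linarith
  have hosc : ∀ (x : I × ball (0 : ℂ) 1), ∀ z ∈ ball (0 : V m) 1, ‖z - q‖ < ρ →
      ‖b x.1 (φ x.1 (mv p x.2 z)) - b x.1 (φ x.1 (mv p x.2 w0))‖ ≤ ε := by
    intro x z hz hzq
    exact hsc x.1 q hq1 hpq ε hε0 x.2 x.2.2 z hz w0 hw0b (hzq.trans_le hρr)
      (hw0q.trans_le hρr)
  have hcb : ∀ (x : I × ball (0 : ℂ) 1), ‖b x.1 (φ x.1 (mv p x.2 w0))‖ ≤ 1 :=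
    fun x => (hB2 x).2 w0 hw0b
  obtain ⟨E, hE⟩ : ∃ E : Set (I × ball (0 : ℂ) 1), E =
      {x : I × ball (0 : ℂ) 1 | ‖b x.1 (φ x.1 (mv p x.2 w0))‖ ≤ 2 * ε} := ⟨_, rfl⟩
  have hχE : χ (Id m E) = 1 := by
    rw [hE]
    refine char_small χ hcb (ε := ε) ?_ (by positivity) (by linarith)
    have h3 : ‖χ (El (f := fun x z => b x.1 (φ x.1 (mv p x.2 z))) (fun x => hB2 x) -
        Ix m hcb)‖ ≤ ε := by
      refine char_boundary χ (by rw [← hq]; exact hq1) _ hρ0 hε0.le univ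
        (by rw [Id_univ, map_one]) ?_
      intro x _ z hz
      rw [← hq] at hz
      exact hosc x z z.2 hz
    rw [map_sub, hχB, zero_sub, norm_neg] at h3
    exact h3
  refine ⟨E, fun l => l.1.1, fun l z => φ l.1.1 (mv p l.1.2 z),
    fun l z => mv p (-(l.1.2 : ℂ)) (ψ l.1.1 z), q, ρ, hρ0, hq1,
    fun l => (hψ l.1.1).symm.comp (hmvx l.1), ?_, ?_⟩
  · intro l z hz hzq
    constructor
    · have h5 := hosc l.1 z hz hzq
      have h6 : ‖b l.1.1 (φ l.1.1 (mv p l.1.2 w0))‖ ≤ 2 * ε := by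
        have h8 : ∀ y ∈ E, ‖b y.1 (φ y.1 (mv p y.2 w0))‖ ≤ 2 * ε := by
          intro y hy
          rw [hE] at hy
          exact hy
        exact h8 l.1 l.2
      have h7 := norm_add_le (b l.1.1 (φ l.1.1 (mv p l.1.2 z)) -
        b l.1.1 (φ l.1.1 (mv p l.1.2 w0))) (b l.1.1 (φ l.1.1 (mv p l.1.2 w0)))
      rw [sub_add_cancel] at h7
      have h9 : 3 * ε = η := by rw [hε]; ring
      change ‖b l.1.1 (φ l.1.1 (mv p l.1.2 z))‖ ≤ η
      linarith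
    · have h3 := far_mv hp (mem_ball_zero_iff.1 l.1.2.2) hz (hfar z hz (hzq.trans_le hρf))
      rw [(hψ l.1.1).i2 _ ((hmvx l.1).m1 hz)]
      exact h3
  · have hF3 : ∀ (x : I × ball (0 : ℂ) 1) (o : ι ⊕ Unit), HB (fun z => o.elim
        (fun j => A x.1 j (φ x.1 (mv p x.2 z))) (fun _ => Lo q z)) := by
      intro x o
      rcases o with o | o
      · exact hA2 x o
      · exact HB_Lo hq1
    refine not_solv (F := fun (x : I × ball (0 : ℂ) 1) (o : ι ⊕ Unit) z => o.elim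
        (fun j => A x.1 j (φ x.1 (mv p x.2 z))) (fun _ => Lo q z)) hF3 χ E hχE ?_
    intro o
    rcases o with o | o
    · exact hχA o
    · have h3 : El (f := fun (_ : I × ball (0 : ℂ) 1) z => Lo q z) (fun x => HB_Lo hq1) =
          (Cc (1/2) * (1 - Lw q) : HI (I × ball (0 : ℂ) 1) m) := by
        apply ext'
        rintro ⟨x, z⟩
        change (1 - inner ℂ q (z : V m)) / 2 = (1/2 : ℂ) * (1 - inner ℂ q (z : V m))
        ring
      change χ (El (f := fun (_ : I × ball (0 : ℂ) 1) z => Lo q z) (fun x => HB_Lo hq1)) = 0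
      rw [h3, map_mul, char_Cc, map_sub, map_one, char_Lw, ← hq, inner_self_eq_norm_sq_to_K, hq1]
      norm_num

end Pool.Agent.Helper59K9.Cor
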