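import Mathlib
import Pool.Agent.Helper59K9.Cor.Step2

/-!
Removal of finitely many functions which are scaled continuous along geodesics.
-/

set_option autoImplicit false

open Metric Set Filter Topology WeakDual

namespace Pool.Agent.Helper59K9.Cor

open Pool.Agent.TH310.Cor
open Pool.Agent.Helper85K9.Cor (One loc_one)
open Pool.Agent.Y263.LF (Bez Bez.mono)

variable {m : ℕ}

/-- functions `Lo q ∘ Φ` -/
def LoA (u : V m → ℂ) : Prop :=
  ∃ (q : V m) (Φ Φ' : V m → V m), ‖q‖ = 1 ∧ Aut Φ Φ' ∧ ∀ z ∈ ball (0 : V m) 1, u z = Lo q (Φ z)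

theorem LoA.one {u : V m → ℂ} (h : LoA u) : One u := by
  obtain ⟨q, Φ, Φ', hq, hΦ, hu⟩ := h
  obtain ⟨f, ψ, h1, h2, h3, h4, h5⟩ := lo_one hq hΦ
  exact ⟨f, ψ, h1, h2, h3, h4, fun z hz => (hu z hz).trans (h5 z hz)⟩

theorem LoA.comp {u : V m → ℂ} (h : LoA u) {θ θ' : V m → V m} (hθ : Aut θ θ') :
    LoA (fun z => u (θ z)) := by
  obtain ⟨q, Φ, Φ', hq, hΦ, hu⟩ := h
  exact ⟨q, _, _, hq, hΦ.comp hθ, fun z hz => hu _ (hθ.m1 hz)⟩

theorem aut_id : Aut (fun z : V m => z) (fun z => z) :=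
  ⟨differentiableOn_id, differentiableOn_id, fun _ h => h, fun _ h => h, fun _ _ => rfl,
    fun _ _ => rfl⟩

theorem LoA_Lo {q : V m} (hq : ‖q‖ = 1) : LoA (Lo q) :=
  ⟨q, _, _, hq, aut_id, fun _ _ => rfl⟩

theorem removal_zero {I κ μ : Type} [Fintype κ] [Fintype μ] (H : I → Fin 0 → V m → ℂ)
    (Λ : I → κ → V m → ℂ) (G : I → μ → V m → ℂ) {ε Q : ℝ} (hε : 0 < ε)
    (hΛ : ∀ i j, LoA (Λ i j)) (hG : ∀ i j, HB (G i j))
    (hloc : ∀ i, Bez {z | z ∈ ball (0 : V m) 1 ∧ ∀ j, ‖Λ i j z‖ < ε} (G i) Q) :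
    Solv (fun i => Sum.elim (Sum.elim (H i) (Λ i)) (G i)) := by
  classical
  obtain ⟨C, hC⟩ := loc_one (Fintype.card κ) (Fintype.card μ) (ε := ε) (Q := Q) hε
  let e := Fintype.equivFin κ
  let e' := Fintype.equivFin μ
  refine ⟨|C|, fun i => ?_⟩
  obtain ⟨g, hg, hgb, hid⟩ := hC (V m) (fun k => Λ i (e.symm k)) (fun _ => 0)
    (fun k => (hΛ i _).one) (fun k => by simp) (fun k => G i (e'.symm k)) (fun k => (hG i _).1)
    (fun k => (hG i _).2) (by
      intro z₀ _ _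
      obtain ⟨g, hg, hgb, hid⟩ := hloc i
      have hsub : {z : V m | z ∈ ball (0 : V m) 1 ∧ ∀ k, ‖Λ i (e.symm k) z - 0‖ < ε} ⊆
          {z | z ∈ ball (0 : V m) 1 ∧ ∀ j, ‖Λ i j z‖ < ε} := by
        rintro z ⟨hz, hzk⟩
        refine ⟨hz, fun j => ?_⟩
        have := hzk (e j)
        rwa [e.symm_apply_apply, sub_zero] at this
      refine ⟨fun k => g (e'.symm k), fun k => (hg _).mono hsub, fun k z hz => hgb _ z (hsub hz),
        fun z hz => ?_⟩
      rw [← hid z (hsub hz)]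
      exact Equiv.sum_comp e'.symm (fun j => G i j z * g j z))
  refine ⟨Sum.elim (Sum.elim (fun k => k.elim0) (fun j z => g (Sum.inl (e j)) z / 2))
    (fun j => g (Sum.inr (e' j))), ?_, ?_, ?_⟩
  · rintro ((k | j) | j)
    · exact k.elim0
    · exact Pool.Agent.Y263.GF.ddiv (hg (Sum.inl (e j))) 2
    · exact hg _
  · rintro ((k | j) | j) z hz
    · exact k.elim0
    · have h1 := (hgb (Sum.inl (e j)) z hz).trans (le_abs_self C)
      change ‖g (Sum.inl (e j)) z / 2‖ ≤ |C|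
      rw [norm_div, show ‖(2 : ℂ)‖ = 2 by norm_num]
      have h2 := norm_nonneg (g (Sum.inl (e j)) z)
      linarith
    · exact (hgb _ z hz).trans (le_abs_self C)
  · intro z hz
    rw [← hid z hz, Fintype.sum_sum_type, Fintype.sum_sum_type, Fintype.sum_sum_type]
    simp only [Sum.elim_inl, Sum.elim_inr, Finset.univ_eq_empty, Finset.sum_empty, zero_add,
      sub_zero]
    congr 1
    · rw [← Equiv.sum_comp e (fun k => Λ i (e.symm k) z / 2 * g (Sum.inl k) z)]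
      refine Finset.sum_congr rfl fun j _ => ?_
      rw [e.symm_apply_apply]
      ring
    · rw [← Equiv.sum_comp e' (fun k => G i (e'.symm k) z * g (Sum.inr k) z)]
      refine Finset.sum_congr rfl fun j _ => ?_
      rw [e'.symm_apply_apply]

/-- **Removal of functions which are scaled continuous along geodesics.** -/
theorem removal (K : ℕ) : ∀ {I κ μ : Type} [Fintype κ] [Fintype μ] (p : Fin K → V m)
    (r : Fin K → V m → ℝ → ℝ) (H : I → Fin K → V m → ℂ) (ψ φ : I → Fin K → V m → V m)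
    (Λ : I → κ → V m → ℂ) (G : I → μ → V m → ℂ) (ε s δ Q : ℝ), (∀ k, ‖p k‖ = 1) →
    (∀ k q ε, 0 < ε → 0 < r k q ε) → 0 < ε → 0 < s → 0 < δ →
    (∀ i k, Aut (ψ i k) (φ i k)) → (∀ i k, HB (H i k)) →
    (∀ i k, SCr (p k) (r k) (fun z => H i k (φ i k z))) → (∀ i j, LoA (Λ i j)) →
    (∀ i j, HB (G i j)) →
    (∀ i, ∀ z ∈ ball (0 : V m) 1, δ ≤ ∑ k, ‖H i k z‖ + ∑ j, ‖Λ i j z‖ + ∑ j, ‖G i j z‖) →
    (∀ i, Bez {z | z ∈ ball (0 : V m) 1 ∧ (∀ k, ‖H i k z‖ < ε) ∧ (∀ j, ‖Λ i j z‖ < ε) ∧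
      ∀ k, Far (p k) s (ψ i k z)} (G i) Q) →
    Solv (fun i => Sum.elim (Sum.elim (H i) (Λ i)) (G i)) := by
  induction K with
  | zero =>
    intro I κ μ _ _ p r H ψ φ Λ G ε s δ Q hp hr hε hs hδ hψ hH hsc hΛ hG hlow hloc
    refine removal_zero H Λ G (ε := ε) (Q := Q) hε hΛ hG fun i => ?_
    refine (hloc i).mono ?_ le_rfl
    rintro z ⟨hz, hzj⟩
    exact ⟨hz, fun k => k.elim0, hzj, fun k => k.elim0⟩
  | succ K ih =>
    intro I κ μ _ _ p r H ψ φ Λ G ε s δ Q hp hr hε hs hδ hψ hH hsc hΛ hG hlow hloc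
    by_contra hns
    obtain ⟨η, hη⟩ : ∃ η : ℝ, η = min (ε / 2) (δ / 2) := ⟨_, rfl⟩
    have hη0 : 0 < η := by rw [hη]; positivity
    have hηε : η < ε := by
      rw [hη]
      exact (min_le_left _ _).trans_lt (by linarith)
    have hηδ : η ≤ δ / 2 := by rw [hη]; exact min_le_right _ _
    have hA : ∀ i (j : (Fin K ⊕ κ) ⊕ μ),
        HB (Sum.elim (Sum.elim (fun k : Fin K => H i k.succ) (Λ i)) (G i) j) := by
      rintro i ((k | j) | j)
      · exact hH i k.succ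
      · exact ⟨(hΛ i j).one.diff, (hΛ i j).one.bd⟩
      · exact hG i j
    have hns' : ¬ Solv (fun i => Sum.elim
        (Sum.elim (Sum.elim (fun k : Fin K => H i k.succ) (Λ i)) (G i))
        (fun _ : Unit => H i 0)) := by
      intro h
      refine hns (Solv.mono (Sum.elim (Sum.elim (Sum.elim (fun k : Fin K =>
        Sum.inl (Sum.inl k.succ)) (fun j => Sum.inl (Sum.inr j))) (fun j => Sum.inr j))
        (fun _ => Sum.inl (Sum.inl 0))) ?_ h)
      rintro i (((k | j) | j) | j) z hz <;> rfl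
    obtain ⟨J, n, θ, θ', q, ρ, hρ, hq, hθ, hnear, hns2⟩ := step2 (hp 0) hA (fun i => hH i 0)
      (fun i => ψ i 0) (fun i => φ i 0) (fun i => hψ i 0) (r 0) (hr 0) (fun i => hsc i 0) hδ
      (by
        intro i z hz
        have h1 := hlow i z hz
        rw [Fin.sum_univ_succ] at h1
        rw [Fintype.sum_sum_type, Fintype.sum_sum_type]
        simp only [Sum.elim_inl, Sum.elim_inr]
        linarith) hns' hη0 hs
    apply hns2
    have hρ4 : 0 < ρ ^ 2 / 4 := by positivity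
    have hLo : ∀ z ∈ ball (0 : V m) 1, ‖Lo q z‖ < ρ ^ 2 / 4 → ‖z - q‖ < ρ := by
      intro z hz h
      by_contra hcon
      push Not at hcon
      have := Lo_ge hq hz hρ.le hcon
      linarith
    have key := ih (I := J) (κ := κ ⊕ Unit) (μ := μ) (fun k => p k.succ) (fun k => r k.succ)
      (fun l k z => H (n l) k.succ (θ l z)) (fun l k z => ψ (n l) k.succ (θ l z))
      (fun l k z => θ' l (φ (n l) k.succ z))
      (fun l => Sum.elim (fun j z => Λ (n l) j (θ l z)) (fun _ => Lo q))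
      (fun l j z => G (n l) j (θ l z)) (min ε (ρ ^ 2 / 4)) s (min (δ / 2) (ρ ^ 2 / 4)) Q
      (fun k => hp k.succ) (fun k => hr k.succ) (lt_min hε hρ4) hs (lt_min (by linarith) hρ4)
      (fun l k => (hψ (n l) k.succ).comp (hθ l)) (fun l k => (hH (n l) k.succ).comp (hθ l))
      ?_ ?_ (fun l j => (hG (n l) j).comp (hθ l)) ?_ ?_
    · refine Solv.mono (Sum.elim (Sum.elim (fun k => Sum.inl (Sum.inl (Sum.inl k)))
        (Sum.elim (fun j => Sum.inl (Sum.inl (Sum.inr j))) (fun u => Sum.inr u)))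
        (fun j => Sum.inl (Sum.inr j))) ?_ key
      rintro l ((k | (j | j)) | j) z hz <;> rfl
    · intro l k q' hq' hpq' ε' hε' a ha z hz w hw hzq hwq
      have hA1 := (aut_mv Pool.Agent.W732.Cor.t_mv (hp k.succ) ha).m1
      have h1 := hsc (n l) k.succ q' hq' hpq' ε' hε' a ha z hz w hw hzq hwq
      have h2 : ∀ x ∈ ball (0 : V m) 1, θ l (θ' l (φ (n l) k.succ x)) = φ (n l) k.succ x :=
        fun x hx => (hθ l).i2 _ ((hψ (n l) k.succ).m2 hx)
      beta_reduce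
      rw [h2 _ (hA1 hz), h2 _ (hA1 hw)]
      exact h1
    · rintro l (j | j)
      · exact (hΛ (n l) j).comp (hθ l)
      · exact LoA_Lo hq
    · intro l z hz
      have h1 := hlow (n l) _ ((hθ l).m1 hz)
      rw [Fin.sum_univ_succ] at h1
      rw [Fintype.sum_sum_type]
      simp only [Sum.elim_inl, Sum.elim_inr, Finset.univ_unique, Finset.sum_singleton]
      have h0 : 0 ≤ ‖Lo q z‖ := norm_nonneg _
      by_cases hzq : ‖z - q‖ < ρ
      · have h2 := (hnear l z hz hzq).1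
        have h3 := min_le_left (δ / 2) (ρ ^ 2 / 4)
        linarith
      · push Not at hzq
        have h2 := Lo_ge hq hz hρ.le hzq
        have h3 := min_le_right (δ / 2) (ρ ^ 2 / 4)
        have h4 : 0 ≤ ∑ k : Fin K, ‖H (n l) k.succ (θ l z)‖ :=
          Finset.sum_nonneg fun _ _ => norm_nonneg _
        have h5 : 0 ≤ ∑ j, ‖Λ (n l) j (θ l z)‖ := Finset.sum_nonneg fun _ _ => norm_nonneg _
        have h6 : 0 ≤ ∑ j, ‖G (n l) j (θ l z)‖ := Finset.sum_nonneg fun _ _ => norm_nonneg _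
        linarith
    · intro l
      obtain ⟨g, hg, hgb, hid⟩ := hloc (n l)
      have hsub : MapsTo (θ l) {z : V m | z ∈ ball (0 : V m) 1 ∧
          (∀ k : Fin K, ‖H (n l) k.succ (θ l z)‖ < min ε (ρ ^ 2 / 4)) ∧
          (∀ j : κ ⊕ Unit, ‖Sum.elim (fun j z => Λ (n l) j (θ l z)) (fun _ => Lo q) j z‖ <
            min ε (ρ ^ 2 / 4)) ∧ ∀ k : Fin K, Far (p k.succ) s (ψ (n l) k.succ (θ l z))}
          {z | z ∈ ball (0 : V m) 1 ∧ (∀ k, ‖H (n l) k z‖ < ε) ∧ (∀ j, ‖Λ (n l) j z‖ < ε) ∧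
            ∀ k, Far (p k) s (ψ (n l) k z)} := by
        rintro z ⟨hz, hz1, hz2, hz3⟩
        have h1 : ‖Lo q z‖ < ρ ^ 2 / 4 := lt_of_lt_of_le (hz2 (Sum.inr ())) (min_le_right _ _)
        have h2 := hnear l z hz (hLo z hz h1)
        refine ⟨(hθ l).m1 hz, ?_, ?_, ?_⟩
        · intro k
          refine Fin.cases ?_ (fun k => ?_) k
          · exact h2.1.trans_lt hηε
          · exact lt_of_lt_of_le (hz1 k) (min_le_left _ _)
        · intro j
          exact lt_of_lt_of_le (hz2 (Sum.inl j)) (min_le_left _ _)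
        · intro k
          refine Fin.cases ?_ (fun k => ?_) k
          · exact h2.2
          · exact hz3 k
      refine ⟨fun j z => g j (θ l z), fun j => (hg j).comp ((hθ l).d1.mono fun z hz => hz.1) hsub,
        fun j z hz => hgb j _ (hsub hz), fun z hz => hid _ (hsub hz)⟩

end Pool.Agent.Helper59K9.Cor
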