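import Mathlib
import Pool.Agent.Helper59K9.Cor.Rem

/-!
Localisation to cells of functions which are scaled continuous along geodesics.
-/

set_option autoImplicit false

open Metric Set Filter Topology WeakDual

namespace Pool.Agent.Helper59K9.Cor

open Pool.Agent.TH310.Cor
open Pool.Agent.Y263.LF (Bez Bez.mono)

variable {m : ℕ}

/-- **Cell theorem**, for families, near boundary points. -/
theorem cell_fam {I : Type} {N : ℕ} {F : I → Fin N → V m → ℂ} (hF : ∀ i j, HB (F i j))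
    {δ : ℝ} (hδ : 0 < δ) (hlow : ∀ i, ∀ z ∈ ball (0 : V m) 1, δ ≤ ∑ j, ‖F i j z‖)
    (hloc : ∀ ζ : V m, ‖ζ‖ = 1 → ∃ (L : ℕ) (p : Fin L → V m) (r : Fin L → V m → ℝ → ℝ)
      (ρ ε s Q : ℝ), (∀ k, ‖p k‖ = 1) ∧ (∀ k q ε, 0 < ε → 0 < r k q ε) ∧ 0 < ρ ∧ 0 < ε ∧ 0 < s ∧
      ∀ i, ∃ (ψ φ : Fin L → V m → V m) (v : Fin L → V m → ℂ), (∀ k, Aut (ψ k) (φ k)) ∧
        (∀ k, HB (v k)) ∧ (∀ k, SCr (p k) (r k) (v k)) ∧
        ∀ z₀ ∈ ball (0 : V m) 1 ∩ ball ζ ρ,
          Bez {z | z ∈ ball (0 : V m) 1 ∩ ball ζ ρ ∧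
            (∀ k, ‖v k (ψ k z) - v k (ψ k z₀)‖ < ε) ∧ ∀ k, Far (p k) s (ψ k z)} (F i) Q) :
    Solv F := by
  classical
  by_contra hns
  let tI : TopologicalSpace I := ⊥
  have dI : DiscreteTopology I := ⟨rfl⟩
  obtain ⟨χ, hχ⟩ := exists_zero hF hns
  obtain ⟨ζ, hζχ⟩ : ∃ ζ, ζ = pt χ := ⟨_, rfl⟩
  have hζ1 : ‖ζ‖ = 1 := by
    rcases lt_or_eq_of_le (pt_norm χ) with h3 | h3
    · exfalso
      have hpt : pt χ ∈ ball (0 : V m) 1 := by rw [mem_ball_zero_iff]; exact h3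
      refine char_index (ι := Fin N) χ (fun o x => F x o (pt χ)) (C := 1)
        (fun o x => (hF x o).2 _ hpt) hδ (fun x => hlow x _ hpt) ?_
      intro o
      have h4 := char_interior χ h3 (El (f := fun x z => F x o z) (fun x => hF x o))
      have h5 : χ (El (f := fun x z => F x o z) (fun x => hF x o)) = 0 := hχ o
      rw [h5] at h4
      refine Eq.trans (congrArg χ ?_) h4.symm
      exact ext' fun x => rfl
    · rw [hζχ]; exact h3
  obtain ⟨L, p, r, ρ, ε, s, Q, hp, hr, hρ, hε, hs, hu⟩ := hloc ζ hζ1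
  choose ψ φ v hψ hv hsc hcell using hu
  obtain ⟨u, hu⟩ : ∃ u : I → Fin L → V m → ℂ, u = fun i l z => v i l (ψ i l z) := ⟨_, rfl⟩
  have huB : ∀ i l, HB (u i l) := fun i l => by
    rw [hu]
    exact (hv i l).comp (hψ i l)
  -- the values of the character
  obtain ⟨c, hc⟩ : ∃ c : Fin L → ℂ, ∀ l, c l = χ (El (f := fun i => u i l) (fun i => huB i l)) :=
    ⟨_, fun l => rfl⟩
  have hc1 : ∀ l, ‖c l‖ ≤ 1 := by
    intro l
    rw [hc l]
    refine (char_le χ _).trans (norm_le zero_le_one fun x => ?_)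
    exact (huB x.1 l).2 x.2 x.2.2
  obtain ⟨H, hH⟩ : ∃ H : I → Fin L → V m → ℂ, H = fun i l z => (u i l z - c l) / 2 := ⟨_, rfl⟩
  have hHB : ∀ i l, HB (H i l) := by
    intro i l
    rw [hH]
    refine ⟨Pool.Agent.Y263.GF.ddiv ((huB i l).1.sub_const _) 2, fun z hz => ?_⟩
    beta_reduce
    rw [norm_div, show ‖(2 : ℂ)‖ = 2 by norm_num, div_le_one (by norm_num)]
    have h6 := norm_sub_le (u i l z) (c l)
    have h7 := (huB i l).2 z hz
    have h8 := hc1 l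
    linarith
  obtain ⟨ε₁, hε₁⟩ : ∃ ε₁ : ℝ, ε₁ = min (ε / 4) (ρ ^ 2 / 4) := ⟨_, rfl⟩
  have hε₁0 : 0 < ε₁ := by rw [hε₁]; positivity
  have hε₁a : ε₁ ≤ ε / 4 := by rw [hε₁]; exact min_le_left _ _
  have hε₁b : ε₁ ≤ ρ ^ 2 / 4 := by rw [hε₁]; exact min_le_right _ _
  have hball : ∀ z ∈ ball (0 : V m) 1, ‖Lo ζ z‖ < ε₁ → z ∈ ball ζ ρ := by
    intro z hz h
    rw [mem_ball, dist_eq_norm]
    by_contra hcon
    push Not at hcon
    have := Lo_ge hζ1 hz hρ.le hcon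
    linarith
  have hsol := removal (m := m) L (I := I) (κ := Unit) (μ := Fin N) p r H ψ φ (fun _ _ => Lo ζ) F
    ε₁ s δ (max Q 0) hp hr hε₁0 hs hδ hψ hHB (by
      intro i k q hq hpq ε' hε' a ha z hz w hw hzq hwq
      have hA1 := (aut_mv Pool.Agent.W732.Cor.t_mv (hp k) ha).m1
      have h1 := hsc i k q hq hpq ε' hε' a ha z hz w hw hzq hwq
      have h2 : ∀ x ∈ ball (0 : V m) 1, H i k (φ i k x) = (v i k x - c k) / 2 := by
        intro x hx
        rw [hH, hu]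
        beta_reduce
        rw [(hψ i k).i2 x hx]
      beta_reduce
      rw [h2 _ (hA1 hz), h2 _ (hA1 hw), ← sub_div, sub_sub_sub_cancel_right, norm_div,
        show ‖(2 : ℂ)‖ = 2 by norm_num]
      have h3 := norm_nonneg (v i k (Pool.Agent.W732.Cor.mv (p k) a z) -
        v i k (Pool.Agent.W732.Cor.mv (p k) a w))
      linarith) (fun _ _ => LoA_Lo hζ1) hF (by
      intro i z hz
      have h1 := hlow i z hz
      have h2 : 0 ≤ ∑ k, ‖H i k z‖ := Finset.sum_nonneg fun _ _ => norm_nonneg _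
      have h3 : 0 ≤ ∑ _j : Unit, ‖Lo ζ z‖ := Finset.sum_nonneg fun _ _ => norm_nonneg _
      linarith) (by
      intro i
      by_cases hne : ∃ z₀ ∈ ball (0 : V m) 1, (∀ k, ‖H i k z₀‖ < ε₁) ∧ ‖Lo ζ z₀‖ < ε₁
      · obtain ⟨z₀, hz₀, hz₀H, hz₀L⟩ := hne
        refine (hcell i z₀ ⟨hz₀, hball z₀ hz₀ hz₀L⟩).mono ?_ (le_max_left _ _)
        rintro z ⟨hz, hzH, hzL, hzF⟩
        refine ⟨⟨hz, hball z hz (hzL ())⟩, fun k => ?_, hzF⟩
        have h6 : v i k (ψ i k z) - v i k (ψ i k z₀) = 2 * H i k z - 2 * H i k z₀ := by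
          rw [hH, hu]
          ring
        rw [h6]
        have h7 := norm_sub_le (2 * H i k z) (2 * H i k z₀)
        rw [norm_mul, norm_mul, show ‖(2 : ℂ)‖ = 2 by norm_num] at h7
        have h8 := hzH k
        have h9 := hz₀H k
        linarith
      · have hemp : {z : V m | z ∈ ball (0 : V m) 1 ∧ (∀ k, ‖H i k z‖ < ε₁) ∧
            (∀ _j : Unit, ‖Lo ζ z‖ < ε₁) ∧ ∀ k, Far (p k) s (ψ i k z)} = ∅ := by
          rw [eq_empty_iff_forall_notMem]
          rintro z ⟨hz, hzH, hzL, hzF⟩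
          exact hne ⟨z, hz, hzH, hzL ()⟩
        rw [hemp]
        exact ⟨fun _ _ => 0, fun _ => differentiableOn_const _, fun _ z hz => hz.elim,
          fun z hz => hz.elim⟩)
  have hFB : ∀ i (o : (Fin L ⊕ Unit) ⊕ Fin N),
      HB (Sum.elim (Sum.elim (H i) (fun _ => Lo ζ)) (F i) o) := by
    rintro i ((k | j) | j)
    · exact hHB i k
    · exact HB_Lo hζ1
    · exact hF i j
  obtain ⟨C, hC⟩ := hsol
  refine not_solv (F := fun i => Sum.elim (Sum.elim (H i) (fun _ : Unit => Lo ζ)) (F i)) hFB χ univ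
    (by rw [Id_univ, map_one]) ?_ ⟨C, fun i => hC i.1⟩
  rintro ((l | j) | j)
  · have h3 : El (f := fun (i : I) => Sum.elim (Sum.elim (H i) (fun _ : Unit => Lo ζ)) (F i)
        (Sum.inl (Sum.inl l))) (fun i => hFB i (Sum.inl (Sum.inl l))) =
        (Cc (1/2) * (El (f := fun i => u i l) (fun i => huB i l) - Cc (c l)) : HI I m) := by
      apply ext'
      rintro ⟨x, z⟩
      change H x l (z : V m) = (1/2 : ℂ) * (u x l (z : V m) - c l)
      rw [hH]
      ring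
    rw [h3, map_mul, map_sub, char_Cc, char_Cc, ← hc l, sub_self, mul_zero]
  · have h3 : El (f := fun (_ : I) z => Lo ζ z) (fun _ => HB_Lo hζ1) =
        (Cc (1/2) * (1 - Lw ζ) : HI I m) := by
      apply ext'
      rintro ⟨x, z⟩
      change (1 - inner ℂ ζ (z : V m)) / 2 = (1/2 : ℂ) * (1 - inner ℂ ζ (z : V m))
      ring
    change χ (El (f := fun (_ : I) z => Lo ζ z) (fun _ => HB_Lo hζ1)) = 0
    rw [h3, map_mul, char_Cc, map_sub, map_one, char_Lw, ← hζχ, inner_self_eq_norm_sq_to_K, hζ1]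
    norm_num
  · exact hχ j

end Pool.Agent.Helper59K9.Cor
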