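import Mathlib
import Pool.Agent.Helper59K9.Cor.Cells
import Pool.Agent.Helper85K9.Cor.Free

/-!
Consequences of the cell theorem: uniform versions, one arbitrary function, the algebra of the
functions which are subordinate to scaled continuous ones.
-/

set_option autoImplicit false

open Metric Set Filter Topology WeakDual

namespace Pool.Agent.Helper59K9.Cor

open Pool.Agent.TH310.Cor
open Pool.Agent.Y263.LF (Bez Bez.mono)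
open Pool.Agent.W732.Cor (mv SC tau tau_diff tau_mem t_sc1 t_sc2 t_sc3 t_mv)
open Pool.Agent.Helper85K9.Cor (osc_bez)

variable {m : ℕ}

/-- **Cell theorem**, uniform, near boundary points. -/
theorem cell_near (m N : ℕ) (L : V m → ℕ) (p : ∀ ζ, Fin (L ζ) → V m) (hp : ∀ ζ k, ‖p ζ k‖ = 1)
    (r : ∀ ζ, Fin (L ζ) → V m → ℝ → ℝ) (hr : ∀ ζ k q ε, 0 < ε → 0 < r ζ k q ε)
    (ρ ε s Q : V m → ℝ) (hρ : ∀ ζ, 0 < ρ ζ) (hε : ∀ ζ, 0 < ε ζ) (hs : ∀ ζ, 0 < s ζ)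
    {δ : ℝ} (hδ : 0 < δ) : ∃ C : ℝ, ∀ F : Fin N → V m → ℂ, (∀ j, HB (F j)) →
    (∀ z ∈ ball (0 : V m) 1, δ ≤ ∑ j, ‖F j z‖) →
    (∀ ζ : V m, ‖ζ‖ = 1 → ∃ (ψ φ : Fin (L ζ) → V m → V m) (v : Fin (L ζ) → V m → ℂ),
      (∀ k, Aut (ψ k) (φ k)) ∧ (∀ k, HB (v k) ∧ SCr (p ζ k) (r ζ k) (v k)) ∧
      ∀ z₀ ∈ ball (0 : V m) 1 ∩ ball ζ (ρ ζ),
        Bez {z | z ∈ ball (0 : V m) 1 ∩ ball ζ (ρ ζ) ∧
          (∀ k, ‖v k (ψ k z) - v k (ψ k z₀)‖ < ε ζ) ∧ ∀ k, Far (p ζ k) (s ζ) (ψ k z)} F (Q ζ)) →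
    Bez (ball (0 : V m) 1) F C := by
  obtain ⟨C, hC⟩ := cell_fam (m := m) (I := {F : Fin N → V m → ℂ // (∀ j, HB (F j)) ∧
      (∀ z ∈ ball (0 : V m) 1, δ ≤ ∑ j, ‖F j z‖) ∧
      (∀ ζ : V m, ‖ζ‖ = 1 → ∃ (ψ φ : Fin (L ζ) → V m → V m) (v : Fin (L ζ) → V m → ℂ),
      (∀ k, Aut (ψ k) (φ k)) ∧ (∀ k, HB (v k) ∧ SCr (p ζ k) (r ζ k) (v k)) ∧
      ∀ z₀ ∈ ball (0 : V m) 1 ∩ ball ζ (ρ ζ),
        Bez {z | z ∈ ball (0 : V m) 1 ∩ ball ζ (ρ ζ) ∧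
          (∀ k, ‖v k (ψ k z) - v k (ψ k z₀)‖ < ε ζ) ∧ ∀ k, Far (p ζ k) (s ζ) (ψ k z)} F (Q ζ))})
    (N := N) (F := fun x => x.1) (fun x => x.2.1) hδ (fun x => x.2.2.1)
    (fun ζ hζ => ⟨L ζ, p ζ, r ζ, ρ ζ, ε ζ, s ζ, Q ζ, hp ζ, hr ζ, hρ ζ, hε ζ, hs ζ, fun x => by
      obtain ⟨ψ, φ, v, h1, h2, h3⟩ := x.2.2.2 ζ hζ
      exact ⟨ψ, φ, v, h1, fun k => (h2 k).1, fun k => (h2 k).2, h3⟩⟩)
  exact ⟨C, fun F h1 h2 h3 => hC ⟨F, h1, h2, h3⟩⟩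

/-- **Cell theorem**, uniform. -/
theorem cell_unif (m N L : ℕ) (p : Fin L → V m) (hp : ∀ k, ‖p k‖ = 1)
    (r : Fin L → V m → ℝ → ℝ) (hr : ∀ k q ε, 0 < ε → 0 < r k q ε)
    {δ ε s : ℝ} (Q : ℝ) (hδ : 0 < δ) (hε : 0 < ε) (hs : 0 < s) : ∃ C : ℝ,
    ∀ (F : Fin N → V m → ℂ) (ψ φ : Fin L → V m → V m) (v : Fin L → V m → ℂ), (∀ j, HB (F j)) →
    (∀ z ∈ ball (0 : V m) 1, δ ≤ ∑ j, ‖F j z‖) → (∀ k, Aut (ψ k) (φ k)) →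
    (∀ k, HB (v k) ∧ SCr (p k) (r k) (v k)) →
    (∀ z₀ ∈ ball (0 : V m) 1, Bez {z | z ∈ ball (0 : V m) 1 ∧
          (∀ k, ‖v k (ψ k z) - v k (ψ k z₀)‖ < ε) ∧ ∀ k, Far (p k) s (ψ k z)} F Q) →
    Bez (ball (0 : V m) 1) F C := by
  obtain ⟨C, hC⟩ := cell_near m N (fun _ => L) (fun _ => p) (fun _ => hp) (fun _ => r)
    (fun _ => hr) (fun _ => 3) (fun _ => ε) (fun _ => s) (fun _ => Q) (fun _ => by norm_num)
    (fun _ => hε) (fun _ => hs) hδ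
  refine ⟨C, fun F ψ φ v hF hlow hψ hv h => hC F hF hlow fun ζ hζ => ⟨ψ, φ, v, hψ, hv,
    fun z₀ hz₀ => (h z₀ hz₀.1).mono ?_ le_rfl⟩⟩
  rintro z ⟨hz, hz1, hz2⟩
  exact ⟨hz.1, hz1, hz2⟩

/-- One arbitrary function in each cell. -/
theorem osc_unif (m N L : ℕ) (p : Fin L → V m) (hp : ∀ k, ‖p k‖ = 1)
    (r : Fin L → V m → ℝ → ℝ) (hr : ∀ k q ε, 0 < ε → 0 < r k q ε)
    {δ ε s : ℝ} (hδ : 0 < δ) (hε : 0 < ε) (hs : 0 < s) : ∃ C : ℝ,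
    ∀ (F : Fin N → V m → ℂ) (ψ φ : Fin L → V m → V m) (v : Fin L → V m → ℂ), (∀ j, HB (F j)) →
    (∀ z ∈ ball (0 : V m) 1, δ ≤ ∑ j, ‖F j z‖) → (∀ k, Aut (ψ k) (φ k)) →
    (∀ k, HB (v k) ∧ SCr (p k) (r k) (v k)) →
    (∀ z₀ ∈ ball (0 : V m) 1, (∀ k, Far (p k) s (ψ k z₀)) → ∃ j₀, ∀ j, j ≠ j₀ →
      ∀ z ∈ ball (0 : V m) 1, (∀ k, ‖v k (ψ k z) - v k (ψ k z₀)‖ < ε) →
      (∀ k, Far (p k) s (ψ k z)) → ‖F j z - F j z₀‖ ≤ δ / (4 * N)) →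
    Bez (ball (0 : V m) 1) F C := by
  obtain ⟨C, hC⟩ := cell_unif m N L p hp r hr (ε := ε / 2) (4 * N / δ) hδ (by positivity) hs
  refine ⟨C, fun F ψ φ v hF hlow hψ hv h => hC F ψ φ v hF hlow hψ hv fun z₁ hz₁ => ?_⟩
  by_cases hne : ∃ z₀ ∈ ball (0 : V m) 1, (∀ k, ‖v k (ψ k z₀) - v k (ψ k z₁)‖ < ε / 2) ∧
      ∀ k, Far (p k) s (ψ k z₀)
  · obtain ⟨z₀, hz₀, h1, h2⟩ := hne
    obtain ⟨j₀, hj₀⟩ := h z₀ hz₀ h2
    refine osc_bez hF hδ hlow (fun z hz => hz.1) hz₀ j₀ (fun j hj z hz => ?_)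
    refine hj₀ j hj z hz.1 (fun k => ?_) hz.2.2
    have h3 := hz.2.1 k
    have h4 := h1 k
    have h5 := norm_sub_le (v k (ψ k z) - v k (ψ k z₁)) (v k (ψ k z₀) - v k (ψ k z₁))
    rw [sub_sub_sub_cancel_right] at h5
    linarith
  · refine ⟨fun _ _ => 0, fun _ => differentiableOn_const _, ?_, ?_⟩
    · rintro _ z ⟨hz, hz1, hz2⟩
      exact (hne ⟨z, hz, hz1, hz2⟩).elim
    · rintro z ⟨hz, hz1, hz2⟩
      exact (hne ⟨z, hz, hz1, hz2⟩).elim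

/-- Scaled continuous functions, each with its own automorphism, and one arbitrary function. -/
theorem corona_unif (m N : ℕ) (p : Fin N → V m) (hp : ∀ k, ‖p k‖ = 1)
    (r : Fin N → V m → ℝ → ℝ) (hr : ∀ k q ε, 0 < ε → 0 < r k q ε)
    {δ : ℝ} (hδ : 0 < δ) : ∃ C : ℝ,
    ∀ (ψ φ : Fin N → V m → V m) (v : Fin N → V m → ℂ) (G : V m → ℂ), (∀ k, Aut (ψ k) (φ k)) →
    (∀ k, HB (v k) ∧ SCr (p k) (r k) (v k)) → HB G →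
    (∀ z ∈ ball (0 : V m) 1, δ ≤ ∑ k, ‖v k (ψ k z)‖ + ‖G z‖) →
    ∃ (g : Fin N → V m → ℂ) (g₀ : V m → ℂ), (∀ k, DifferentiableOn ℂ (g k) (ball 0 1)) ∧
      DifferentiableOn ℂ g₀ (ball 0 1) ∧ (∀ k, ∀ z ∈ ball (0 : V m) 1, ‖g k z‖ ≤ C) ∧
      (∀ z ∈ ball (0 : V m) 1, ‖g₀ z‖ ≤ C) ∧
      ∀ z ∈ ball (0 : V m) 1, ∑ k, v k (ψ k z) * g k z + G z * g₀ z = 1 := by
  obtain ⟨C, hC⟩ := osc_unif m (N + 1) N p hp r hr (δ := δ) (ε := δ / (4 * ((N + 1 : ℕ) : ℝ)))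
    (s := 2) hδ (by positivity) (by norm_num)
  refine ⟨C, fun ψ φ v G hψ hv hG hlow => ?_⟩
  obtain ⟨g, hg, hgb, hid⟩ := hC (Fin.cons G (fun k z => v k (ψ k z))) ψ φ v
    (fun j => by
      refine Fin.cases ?_ (fun k => ?_) j
      · exact hG
      · exact (hv k).1.comp (hψ k))
    (fun z hz => by
      rw [Fin.sum_univ_succ]
      simp only [Fin.cons_zero, Fin.cons_succ]
      rw [add_comm]
      exact hlow z hz) hψ hv (fun z₀ hz₀ _ => by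
      refine ⟨0, fun j hj z hz hcell _ => ?_⟩
      obtain ⟨k, rfl⟩ := Fin.exists_succ_eq.2 hj
      exact (hcell k).le)
  refine ⟨fun k => g k.succ, g 0, fun k => hg _, hg 0, fun k => hgb _, hgb 0, fun z hz => ?_⟩
  have h1 := hid z hz
  rw [Fin.sum_univ_succ] at h1
  simp only [Fin.cons_zero, Fin.cons_succ] at h1
  rw [add_comm]
  exact h1

/-! ### Examples of scaled continuous functions -/

/-- a modulus for the functions `H ∘ tau p t` -/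
theorem exists_mod {p : V m} (hp : ‖p‖ = 1) {t : ℝ} (ht0 : 0 ≤ t) (ht1 : t < 1) :
    ∃ r : V m → ℝ → ℝ, (∀ q ε, 0 < ε → 0 < r q ε) ∧
      ∀ H : V m → ℂ, HB H → HB (fun z => H (tau p t z)) ∧ SCr p r (fun z => H (tau p t z)) := by
  classical
  choose r hr hr2 using fun (ε : ℝ) (hε : 0 < ε) => t_sc2 m p hp t ht0 ht1 ε hε
  refine ⟨fun _ ε => if h : 0 < ε then r ε h else 1, fun q ε hε => ?_, fun H hH => ⟨⟨?_, ?_⟩, ?_⟩⟩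
  · simp only [dif_pos hε]
    exact hr ε hε
  · refine hH.1.comp (tau_diff p t).differentiableOn fun z hz => ?_
    rw [mem_ball_zero_iff] at hz ⊢
    exact tau_mem p z hp ht0 ht1.le hz
  · intro z hz
    refine hH.2 _ ?_
    rw [mem_ball_zero_iff] at hz ⊢
    exact tau_mem p z hp ht0 ht1.le hz
  · intro q hq hpq ε hε a ha z hz w hw hzq hwq
    simp only [dif_pos hε] at hzq hwq
    exact hr2 ε hε H hH.1 hH.2 q hq hpq a ha z hz w hw hzq hwq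

/-- scaled continuous functions have a modulus -/
theorem SC.exists_mod {p : V m} {f : V m → ℂ} (h : SC p f) :
    ∃ r : V m → ℝ → ℝ, (∀ q ε, 0 < ε → 0 < r q ε) ∧ SCr p r f := by
  classical
  choose r hr hr2 using fun (q : V m) (hq : ‖q‖ = 1 ∧ (inner ℂ p q : ℂ) = 0) (ε : ℝ) (hε : 0 < ε) =>
    h q hq.1 hq.2 ε hε
  refine ⟨fun q ε => if h : (‖q‖ = 1 ∧ (inner ℂ p q : ℂ) = 0) ∧ 0 < ε then r q h.1 ε h.2 else 1,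
    fun q ε hε => ?_, fun q hq hpq ε hε a ha z hz w hw hzq hwq => ?_⟩
  · by_cases hc : (‖q‖ = 1 ∧ (inner ℂ p q : ℂ) = 0) ∧ 0 < ε
    · simp only [dif_pos hc]
      exact hr q hc.1 ε hc.2
    · simp only [dif_neg hc]
      exact one_pos
  · have hc : (‖q‖ = 1 ∧ (inner ℂ p q : ℂ) = 0) ∧ 0 < ε := ⟨⟨hq, hpq⟩, hε⟩
    simp only [dif_pos hc] at hzq hwq
    exact hr2 q hc.1 ε hc.2 a ha z hz w hw hzq hwq

end Pool.Agent.Helper59K9.Cor
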