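import Mathlib
import Pool.Agent.Helper59K9.Cor.Cons

/-!
The algebra of the bounded holomorphic functions which are subordinate to scaled continuous
functions composed with automorphisms.
-/

set_option autoImplicit false

open Metric Set Filter Topology WeakDual

namespace Pool.Agent.Helper59K9.Cor

open Pool.Agent.TH310.Cor
open Pool.Agent.Y263.LF (Bez Bez.mono)
open Pool.Agent.W732.Cor (mv SC tau tau_diff tau_mem t_sc1 t_sc2 t_sc3 t_mv)
open Pool.Agent.Helper85K9.Cor (osc_bez)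

variable {m : ℕ}

/-- generators: scaled continuous functions composed with automorphisms -/
def Gen (u : V m → ℂ) : Prop :=
  ∃ (p : V m) (v : V m → ℂ) (ψ φ : V m → V m), ‖p‖ = 1 ∧ DifferentiableOn ℂ v (ball 0 1) ∧
    (∃ M : ℝ, ∀ z ∈ ball (0 : V m) 1, ‖v z‖ ≤ M) ∧ SC p v ∧ Aut ψ φ ∧
    ∀ z ∈ ball (0 : V m) 1, u z = v (ψ z)

/-- functions subordinate to the generators -/
def Sbd (f : V m → ℂ) : Prop :=
  DifferentiableOn ℂ f (ball 0 1) ∧ (∃ M : ℝ, ∀ z ∈ ball (0 : V m) 1, ‖f z‖ ≤ M) ∧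
    ∀ ε : ℝ, 0 < ε → ∃ (U : Finset (V m → ℂ)) (κ : ℝ), 0 < κ ∧ (∀ u ∈ U, Gen u) ∧
      ∀ z ∈ ball (0 : V m) 1, ∀ z' ∈ ball (0 : V m) 1, (∀ u ∈ U, ‖u z - u z'‖ < κ) →
        ‖f z - f z'‖ ≤ ε

theorem Gen.comp {u : V m → ℂ} (h : Gen u) {θ θ' : V m → V m} (hθ : Aut θ θ') :
    Gen (fun z => u (θ z)) := by
  obtain ⟨p, v, ψ, φ, hp, hv, hM, hs, hψ, hu⟩ := h
  exact ⟨p, v, _, _, hp, hv, hM, hs, hψ.comp hθ, fun z hz => hu _ (hθ.m1 hz)⟩

theorem Gen.bd {u : V m → ℂ} (h : Gen u) : ∃ M : ℝ, ∀ z ∈ ball (0 : V m) 1, ‖u z‖ ≤ M := by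
  obtain ⟨p, v, ψ, φ, hp, hv, ⟨M, hM⟩, hs, hψ, hu⟩ := h
  exact ⟨M, fun z hz => by rw [hu z hz]; exact hM _ (hψ.m1 hz)⟩

theorem Gen.diff {u : V m → ℂ} (h : Gen u) : DifferentiableOn ℂ u (ball 0 1) := by
  obtain ⟨p, v, ψ, φ, hp, hv, ⟨M, hM⟩, hs, hψ, hu⟩ := h
  exact (hv.comp hψ.d1 hψ.m1).congr hu

theorem Sbd.of_gen {u : V m → ℂ} (h : Gen u) : Sbd u := by
  classical
  refine ⟨h.diff, h.bd, fun ε hε => ⟨{u}, ε, hε, fun u' hu' => ?_, fun z hz z' hz' hc => ?_⟩⟩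
  · rw [Finset.mem_singleton] at hu'
    rw [hu']
    exact h
  · exact (hc u (Finset.mem_singleton_self u)).le

theorem Sbd.const (c : ℂ) : Sbd (fun _ : V m => c) := by
  refine ⟨differentiableOn_const _, ⟨‖c‖, fun _ _ => le_rfl⟩, fun ε hε => ⟨∅, 1, one_pos,
    fun u hu => absurd hu (Finset.notMem_empty u), fun z _ z' _ _ => ?_⟩⟩
  rw [sub_self, norm_zero]
  exact hε.le

theorem Sbd.add {f g : V m → ℂ} (hf : Sbd f) (hg : Sbd g) : Sbd (fun z => f z + g z) := by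
  classical
  obtain ⟨hfd, ⟨Mf, hMf⟩, hfs⟩ := hf
  obtain ⟨hgd, ⟨Mg, hMg⟩, hgs⟩ := hg
  refine ⟨hfd.add hgd, ⟨Mf + Mg, fun z hz => (norm_add_le _ _).trans
    (add_le_add (hMf z hz) (hMg z hz))⟩, fun ε hε => ?_⟩
  obtain ⟨U, κ, hκ, hU, hc⟩ := hfs (ε / 2) (by positivity)
  obtain ⟨U', κ', hκ', hU', hc'⟩ := hgs (ε / 2) (by positivity)
  refine ⟨U ∪ U', min κ κ', lt_min hκ hκ', fun u hu => ?_, fun z hz z' hz' h => ?_⟩
  · rcases Finset.mem_union.1 hu with h | h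
    · exact hU u h
    · exact hU' u h
  · have h1 := hc z hz z' hz' fun u hu =>
      (h u (Finset.mem_union_left _ hu)).trans_le (min_le_left _ _)
    have h2 := hc' z hz z' hz' fun u hu =>
      (h u (Finset.mem_union_right _ hu)).trans_le (min_le_right _ _)
    have h3 : f z + g z - (f z' + g z') = (f z - f z') + (g z - g z') := by ring
    rw [h3]
    have h4 := norm_add_le (f z - f z') (g z - g z')
    linarith

theorem Sbd.mul {f g : V m → ℂ} (hf : Sbd f) (hg : Sbd g) : Sbd (fun z => f z * g z) := by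
  classical
  obtain ⟨hfd, ⟨Mf, hMf⟩, hfs⟩ := hf
  obtain ⟨hgd, ⟨Mg, hMg⟩, hgs⟩ := hg
  have hMf' : ∀ z ∈ ball (0 : V m) 1, ‖f z‖ ≤ |Mf| + 1 := fun z hz => by
    have := hMf z hz
    have h1 := le_abs_self Mf
    linarith
  have hMg' : ∀ z ∈ ball (0 : V m) 1, ‖g z‖ ≤ |Mg| + 1 := fun z hz => by
    have := hMg z hz
    have h1 := le_abs_self Mg
    linarith
  have hf0 : 0 < |Mf| + 1 := by positivity
  have hg0 : 0 < |Mg| + 1 := by positivity
  refine ⟨hfd.mul hgd, ⟨(|Mf| + 1) * (|Mg| + 1), fun z hz => ?_⟩, fun ε hε => ?_⟩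
  · rw [norm_mul]
    exact mul_le_mul (hMf' z hz) (hMg' z hz) (norm_nonneg _) hf0.le
  obtain ⟨U, κ, hκ, hU, hc⟩ := hfs (ε / (2 * (|Mg| + 1))) (by positivity)
  obtain ⟨U', κ', hκ', hU', hc'⟩ := hgs (ε / (2 * (|Mf| + 1))) (by positivity)
  refine ⟨U ∪ U', min κ κ', lt_min hκ hκ', fun u hu => ?_, fun z hz z' hz' h => ?_⟩
  · rcases Finset.mem_union.1 hu with h | h
    · exact hU u h
    · exact hU' u h
  · have h1 := hc z hz z' hz' fun u hu =>
      (h u (Finset.mem_union_left _ hu)).trans_le (min_le_left _ _)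
    have h2 := hc' z hz z' hz' fun u hu =>
      (h u (Finset.mem_union_right _ hu)).trans_le (min_le_right _ _)
    have h3 : f z * g z - f z' * g z' = (f z - f z') * g z + f z' * (g z - g z') := by ring
    rw [h3]
    have h4 := norm_add_le ((f z - f z') * g z) (f z' * (g z - g z'))
    rw [norm_mul, norm_mul] at h4
    have h5 : ‖f z - f z'‖ * ‖g z‖ ≤ ε / (2 * (|Mg| + 1)) * (|Mg| + 1) :=
      mul_le_mul h1 (hMg' z hz) (norm_nonneg _) (by positivity)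
    have h6 : ‖f z'‖ * ‖g z - g z'‖ ≤ (|Mf| + 1) * (ε / (2 * (|Mf| + 1))) :=
      mul_le_mul (hMf' z' hz') h2 (norm_nonneg _) (by positivity)
    have h7 : ε / (2 * (|Mg| + 1)) * (|Mg| + 1) = ε / 2 := by field_simp
    have h8 : (|Mf| + 1) * (ε / (2 * (|Mf| + 1))) = ε / 2 := by field_simp
    linarith

theorem Sbd.limit {f : V m → ℂ} (hd : DifferentiableOn ℂ f (ball 0 1))
    (h : ∀ ε : ℝ, 0 < ε → ∃ g : V m → ℂ, Sbd g ∧ ∀ z ∈ ball (0 : V m) 1, ‖f z - g z‖ ≤ ε) :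
    Sbd f := by
  refine ⟨hd, ?_, fun ε hε => ?_⟩
  · obtain ⟨g, ⟨-, ⟨M, hM⟩, -⟩, hg⟩ := h 1 one_pos
    refine ⟨M + 1, fun z hz => ?_⟩
    have h1 := hg z hz
    have h2 := hM z hz
    have h3 := norm_add_le (f z - g z) (g z)
    rw [sub_add_cancel] at h3
    linarith
  · obtain ⟨g, ⟨-, -, hgs⟩, hg⟩ := h (ε / 3) (by positivity)
    obtain ⟨U, κ, hκ, hU, hc⟩ := hgs (ε / 3) (by positivity)
    refine ⟨U, κ, hκ, hU, fun z hz z' hz' hu => ?_⟩
    have h1 := hc z hz z' hz' hu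
    have h2 := hg z hz
    have h3 := hg z' hz'
    have h4 : f z - f z' = (f z - g z) + (g z - g z') - (f z' - g z') := by ring
    rw [h4]
    have h5 := norm_sub_le ((f z - g z) + (g z - g z')) (f z' - g z')
    have h6 := norm_add_le (f z - g z) (g z - g z')
    linarith

theorem Sbd.comp {f : V m → ℂ} (hf : Sbd f) {θ θ' : V m → V m} (hθ : Aut θ θ') :
    Sbd (fun z => f (θ z)) := by
  classical
  obtain ⟨hfd, ⟨Mf, hMf⟩, hfs⟩ := hf
  refine ⟨hfd.comp hθ.d1 hθ.m1, ⟨Mf, fun z hz => hMf _ (hθ.m1 hz)⟩, fun ε hε => ?_⟩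
  obtain ⟨U, κ, hκ, hU, hc⟩ := hfs ε hε
  refine ⟨U.image (fun u z => u (θ z)), κ, hκ, fun u hu => ?_, fun z hz z' hz' h => ?_⟩
  · obtain ⟨u', hu', rfl⟩ := Finset.mem_image.1 hu
    exact (hU u' hu').comp hθ
  · refine hc _ (hθ.m1 hz) _ (hθ.m1 hz') fun u hu => ?_
    exact h _ (Finset.mem_image_of_mem (fun u z => u (θ z)) hu)

theorem gen_inner_comp {p : V m} (hp : ‖p‖ = 1) {h : ℂ → ℂ} (hd : DifferentiableOn ℂ h (ball 0 1))
    {M : ℝ} (hM : ∀ x ∈ ball (0 : ℂ) 1, ‖h x‖ ≤ M) : Gen (fun z : V m => h (inner ℂ p z)) := by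
  have hmaps : MapsTo (fun z : V m => (inner ℂ p z : ℂ)) (ball 0 1) (ball 0 1) := by
    intro z hz
    rw [mem_ball_zero_iff]
    exact Pool.Agent.W732.Cor.inner_le p z hp (mem_ball_zero_iff.1 hz)
  exact ⟨p, _, _, _, hp, hd.comp (Pool.Agent.W732.Cor.inner_diff p).differentiableOn hmaps,
    ⟨M, fun z hz => hM _ (hmaps hz)⟩, t_sc1 m p hp h hd ⟨M, hM⟩, aut_id, fun z hz => rfl⟩

theorem gen_tau {p : V m} (hp : ‖p‖ = 1) {t : ℝ} (ht0 : 0 ≤ t) (ht1 : t < 1) {H : V m → ℂ}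
    (hH : DifferentiableOn ℂ H (ball 0 1)) {M : ℝ} (hM : ∀ z ∈ ball (0 : V m) 1, ‖H z‖ ≤ M) :
    Gen (fun z : V m => H (tau p t z)) := by
  have hmaps : MapsTo (tau p t) (ball (0 : V m) 1) (ball 0 1) := by
    intro z hz
    rw [mem_ball_zero_iff] at hz ⊢
    exact tau_mem p z hp ht0 ht1.le hz
  exact ⟨p, _, _, _, hp, hH.comp (tau_diff p t).differentiableOn hmaps,
    ⟨M, fun z hz => hM _ (hmaps hz)⟩, Pool.Agent.W732.Cor.SC_tau t_sc2 hp ht0 ht1 hH hM, aut_id,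
    fun z hz => rfl⟩

/-- the ball algebra -/
theorem Sbd.cont {f : V m → ℂ} (hd : DifferentiableOn ℂ f (ball 0 1))
    (hc : ContinuousOn f (closedBall 0 1)) : Sbd f := by
  classical
  have hK := isCompact_closedBall (0 : V m) 1
  refine ⟨hd, ?_, fun ε hε => ?_⟩
  · obtain ⟨M, hM⟩ := hK.exists_bound_of_continuousOn hc
    exact ⟨M, fun z hz => hM z (ball_subset_closedBall hz)⟩
  · have huc := hK.uniformContinuousOn_of_continuous hc
    rw [Metric.uniformContinuousOn_iff] at huc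
    obtain ⟨κ, hκ, h1⟩ := huc ε hε
    have hco : ∀ i : Fin m, Gen (fun z : V m => (inner ℂ (EuclideanSpace.single i (1 : ℂ)) z : ℂ)) :=
      fun i => gen_inner_comp (p := EuclideanSpace.single i (1 : ℂ)) (by simp)
        (h := fun x => x) differentiableOn_id (M := 1) (fun x hx => (mem_ball_zero_iff.1 hx).le)
    refine ⟨Finset.univ.image fun (i : Fin m) (z : V m) =>
      (inner ℂ (EuclideanSpace.single i (1 : ℂ)) z : ℂ), κ / (m + 1), by positivity,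
      fun u hu => ?_, fun z hz z' hz' h => ?_⟩
    · obtain ⟨i, -, rfl⟩ := Finset.mem_image.1 hu
      exact hco i
    · have h2 : ∀ i : Fin m, ‖z i - z' i‖ < κ / (m + 1) := by
        intro i
        have h3 := h _ (Finset.mem_image_of_mem (fun (i : Fin m) (z : V m) =>
          (inner ℂ (EuclideanSpace.single i (1 : ℂ)) z : ℂ)) (Finset.mem_univ i))
        rw [← inner_sub_right, EuclideanSpace.inner_single_left] at h3
        simpa using h3
      have h3 : ‖z - z'‖ ≤ ∑ i, ‖z i - z' i‖ := by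
        have h4 : z - z' = ∑ i, EuclideanSpace.single i (z i - z' i) := by
          ext j
          simp [Finset.sum_apply, Pi.single_apply]
        conv_lhs => rw [h4]
        refine (norm_sum_le _ _).trans (Finset.sum_le_sum fun i _ => ?_)
        rw [PiLp.norm_single]
      have h4 : dist z z' < κ := by
        rw [dist_eq_norm]
        refine h3.trans_lt ?_
        have h5 : ∑ i, ‖z i - z' i‖ ≤ ∑ _i : Fin m, κ / (m + 1) :=
          Finset.sum_le_sum fun i _ => (h2 i).le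
        rw [Finset.sum_const, Finset.card_univ, Fintype.card_fin, nsmul_eq_mul] at h5
        refine h5.trans_lt ?_
        rw [← mul_div_assoc, div_lt_iff₀ (by positivity)]
        nlinarith
      have h5 := h1 z (ball_subset_closedBall hz) z' (ball_subset_closedBall hz') h4
      rw [dist_eq_norm] at h5
      exact h5.le

/-- **Cell theorem for subordinate functions.** -/
theorem sub_cells (m N L : ℕ) (f : Fin L → V m → ℂ) (hf : ∀ k, Sbd (f k)) {ε : ℝ} (Q : ℝ)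
    (hε : 0 < ε) : ∃ C : ℝ, ∀ (F : Fin N → V m → ℂ) (ψ φ : Fin L → V m → V m),
    (∀ j, HB (F j)) → (∀ k, Aut (ψ k) (φ k)) →
    (∀ z₀ ∈ ball (0 : V m) 1, Bez {z | z ∈ ball (0 : V m) 1 ∧
          ∀ k, ‖f k (ψ k z) - f k (ψ k z₀)‖ < ε} F Q) →
    Bez (ball (0 : V m) 1) F C := by
  classical
  choose U κ hκ hU hUc using fun k => (hf k).2.2 (ε / 2) (by positivity)
  let T : Type := Σ k : Fin L, {u // u ∈ U k}
  let e : T ≃ Fin (Fintype.card T) := Fintype.equivFin T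
  choose p v ψ₀ φ₀ hp hv hM hs hψ₀ hu using fun t : T => hU t.1 t.2.1 t.2.2
  choose M hM using hM
  have hM' : ∀ t, ∀ z ∈ ball (0 : V m) 1, ‖v t z‖ ≤ |M t| + 1 := fun t z hz => by
    have h1 := hM t z hz
    have h2 := le_abs_self (M t)
    linarith
  have hM0 : ∀ t, 0 < |M t| + 1 := fun t => by positivity
  have hMn : ∀ t, ‖((|M t| + 1 : ℝ) : ℂ)‖ = |M t| + 1 := fun t => by
    rw [Complex.norm_real, Real.norm_of_nonneg (hM0 t).le]
  obtain ⟨w, hw⟩ : ∃ w : T → V m → ℂ, w = fun t z => v t z / ((|M t| + 1 : ℝ) : ℂ) := ⟨_, rfl⟩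
  have hwB : ∀ t, HB (w t) := by
    intro t
    rw [hw]
    refine ⟨Pool.Agent.Y263.GF.ddiv (hv t) _, fun z hz => ?_⟩
    beta_reduce
    rw [norm_div, hMn, div_le_one (hM0 t)]
    exact hM' t z hz
  have hwS : ∀ t, SC (p t) (w t) := by
    intro t q hq hpq ε' hε'
    obtain ⟨r, hr, h1⟩ := hs t q hq hpq (ε' * (|M t| + 1)) (mul_pos hε' (hM0 t))
    refine ⟨r, hr, fun a ha z hz w' hw' hzq hwq => ?_⟩
    rw [hw]
    beta_reduce
    rw [← sub_div, norm_div, hMn, div_le_iff₀ (hM0 t)]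
    exact h1 a ha z hz w' hw' hzq hwq
  choose r hr hsc using fun t => SC.exists_mod (hwS t)
  -- a common constant
  obtain ⟨κ₀, hκ₀, hκ₁⟩ : ∃ κ₀ : ℝ, 0 < κ₀ ∧ ∀ t : T, κ₀ ≤ κ t.1 / (|M t| + 1) := by
    refine ⟨1 / (∑ t : T, (|M t| + 1) / κ t.1 + 1), ?_, fun t => ?_⟩
    · have : 0 ≤ ∑ t : T, (|M t| + 1) / κ t.1 :=
        Finset.sum_nonneg fun t _ => (div_pos (hM0 t) (hκ t.1)).le
      positivity
    · have h1 : (|M t| + 1) / κ t.1 ≤ ∑ t : T, (|M t| + 1) / κ t.1 :=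
        Finset.single_le_sum (f := fun t : T => (|M t| + 1) / κ t.1)
          (fun t _ => (div_pos (hM0 t) (hκ t.1)).le) (Finset.mem_univ t)
      have h2 : 0 < (|M t| + 1) / κ t.1 := div_pos (hM0 t) (hκ t.1)
      have h3 : κ t.1 / (|M t| + 1) = 1 / ((|M t| + 1) / κ t.1) := by rw [one_div_div]
      rw [h3]
      exact one_div_le_one_div_of_le h2 (by linarith)
  obtain ⟨C, hC⟩ := cell_unif m N (Fintype.card T) (fun k => p (e.symm k)) (fun k => hp _)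
    (fun k => r (e.symm k)) (fun k => hr _) (δ := 1 / (|Q| + 1)) (ε := κ₀) (s := 1) Q
    (by positivity) hκ₀ one_pos
  refine ⟨C, fun F ψ φ hF hψ h => ?_⟩
  refine hC F (fun k z => ψ₀ (e.symm k) (ψ (e.symm k).1 z))
    (fun k z => φ (e.symm k).1 (φ₀ (e.symm k) z)) (fun k => w (e.symm k)) hF ?_
    (fun k => (hψ₀ _).comp (hψ _)) (fun k => ⟨hwB _, hsc _⟩) ?_
  · intro z hz
    obtain ⟨g, hg, hgb, hid⟩ := h z hz
    have hz' : z ∈ {z' | z' ∈ ball (0 : V m) 1 ∧ ∀ k, ‖f k (ψ k z') - f k (ψ k z)‖ < ε} :=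
      ⟨hz, fun k => by rw [sub_self, norm_zero]; exact hε⟩
    have h1 := hid z hz'
    have h2 : (1 : ℝ) ≤ ∑ j, ‖F j z‖ * (|Q| + 1) := by
      calc (1 : ℝ) = ‖∑ j, F j z * g j z‖ := by rw [h1, norm_one]
        _ ≤ ∑ j, ‖F j z * g j z‖ := norm_sum_le _ _
        _ ≤ ∑ j, ‖F j z‖ * (|Q| + 1) := by
          refine Finset.sum_le_sum fun j _ => ?_
          rw [norm_mul]
          have h3 := hgb j z hz'
          have h4 := le_abs_self Q
          exact mul_le_mul_of_nonneg_left (by linarith) (norm_nonneg _)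
    rw [← Finset.sum_mul] at h2
    rw [div_le_iff₀ (by positivity)]
    exact h2
  · intro z₀ hz₀
    refine (h z₀ hz₀).mono ?_ le_rfl
    rintro z ⟨hz, hzc, -⟩
    refine ⟨hz, fun k => ?_⟩
    have h1 : ‖f k (ψ k z) - f k (ψ k z₀)‖ ≤ ε / 2 := by
      refine hUc k _ ((hψ k).m1 hz) _ ((hψ k).m1 hz₀) fun u hu' => ?_
      have h2 := hzc (e ⟨k, ⟨u, hu'⟩⟩)
      rw [e.symm_apply_apply, hw] at h2
      beta_reduce at h2
      rw [← sub_div, norm_div, hMn, div_lt_iff₀ (hM0 _)] at h2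
      have h3 := hκ₁ ⟨k, ⟨u, hu'⟩⟩
      rw [le_div_iff₀ (hM0 _)] at h3
      have h4 := hu ⟨k, ⟨u, hu'⟩⟩ _ ((hψ k).m1 hz)
      have h5 := hu ⟨k, ⟨u, hu'⟩⟩ _ ((hψ k).m1 hz₀)
      change u (ψ k z) = _ at h4
      change u (ψ k z₀) = _ at h5
      rw [h4, h5]
      exact h2.trans_le h3
    linarith

/-- **Corona theorem** for subordinate functions, each composed with its own automorphism, and one
arbitrary function. -/
theorem sub_corona (m N : ℕ) (f : Fin N → V m → ℂ) (hf : ∀ k, Sbd (f k)) {δ : ℝ} (hδ : 0 < δ) :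
    ∃ C : ℝ, ∀ (ψ φ : Fin N → V m → V m) (G : V m → ℂ), (∀ k, Aut (ψ k) (φ k)) → HB G →
    (∀ z ∈ ball (0 : V m) 1, δ ≤ ∑ k, ‖f k (ψ k z)‖ + ‖G z‖) →
    ∃ (g : Fin N → V m → ℂ) (g₀ : V m → ℂ), (∀ k, DifferentiableOn ℂ (g k) (ball 0 1)) ∧
      DifferentiableOn ℂ g₀ (ball 0 1) ∧ (∀ k, ∀ z ∈ ball (0 : V m) 1, ‖g k z‖ ≤ C) ∧
      (∀ z ∈ ball (0 : V m) 1, ‖g₀ z‖ ≤ C) ∧
      ∀ z ∈ ball (0 : V m) 1, ∑ k, f k (ψ k z) * g k z + G z * g₀ z = 1 := by
  classical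
  choose M hM using fun k => (hf k).2.1
  obtain ⟨R, hR⟩ : ∃ R : ℝ, R = ∑ k, |M k| + 1 := ⟨_, rfl⟩
  have hR1 : 1 ≤ R := by
    rw [hR]
    have : 0 ≤ ∑ k, |M k| := Finset.sum_nonneg fun _ _ => abs_nonneg _
    linarith
  have hR0 : 0 < R := by linarith
  have hRn : ‖((R : ℝ) : ℂ)‖ = R := by rw [Complex.norm_real, Real.norm_of_nonneg hR0.le]
  have hMR : ∀ k, ∀ z ∈ ball (0 : V m) 1, ‖f k z‖ ≤ R := by
    intro k z hz
    have h1 := hM k z hz
    have h2 := le_abs_self (M k)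
    have h3 : |M k| ≤ ∑ k, |M k| := Finset.single_le_sum (f := fun k => |M k|)
      (fun _ _ => abs_nonneg _) (Finset.mem_univ k)
    linarith
  obtain ⟨δ', hδ'⟩ : ∃ δ' : ℝ, δ' = δ / R := ⟨_, rfl⟩
  have hδ'0 : 0 < δ' := by rw [hδ']; positivity
  obtain ⟨C, hC⟩ := sub_cells m (N + 1) N f hf (ε := δ' / (4 * ((N + 1 : ℕ) : ℝ)) )
    (4 * ((N + 1 : ℕ) : ℝ) / δ') (by positivity)
  refine ⟨|C|, fun ψ φ G hψ hG hlow => ?_⟩
  have hFB : ∀ j, HB ((Fin.cons G (fun k z => f k (ψ k z) / ((R : ℝ) : ℂ)) :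
      Fin (N + 1) → V m → ℂ) j) := by
    intro j
    refine Fin.cases ?_ (fun k => ?_) j
    · exact hG
    · refine ⟨Pool.Agent.Y263.GF.ddiv (((hf k).1).comp (hψ k).d1 (hψ k).m1) _, fun z hz => ?_⟩
      rw [Fin.cons_succ, norm_div, hRn, div_le_one hR0]
      exact hMR k _ ((hψ k).m1 hz)
  have hlow' : ∀ z ∈ ball (0 : V m) 1, δ' ≤ ∑ j, ‖(Fin.cons G (fun k z => f k (ψ k z) /
      ((R : ℝ) : ℂ)) : Fin (N + 1) → V m → ℂ) j z‖ := by
    intro z hz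
    rw [Fin.sum_univ_succ]
    simp only [Fin.cons_zero, Fin.cons_succ, norm_div, hRn]
    rw [← Finset.sum_div, hδ', div_le_iff₀ hR0, add_mul, div_mul_cancel₀ _ hR0.ne']
    have h1 := hlow z hz
    have h2 : ‖G z‖ ≤ ‖G z‖ * R := le_mul_of_one_le_right (norm_nonneg _) hR1
    linarith
  obtain ⟨g, hg, hgb, hid⟩ := hC (Fin.cons G (fun k z => f k (ψ k z) / ((R : ℝ) : ℂ))) ψ φ hFB hψ
    (fun z₀ hz₀ => by
      refine osc_bez hFB hδ'0 hlow' (fun z hz => hz.1) hz₀ 0 (fun j hj z hz => ?_)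
      obtain ⟨k, rfl⟩ := Fin.exists_succ_eq.2 hj
      rw [Fin.cons_succ, ← sub_div, norm_div, hRn]
      have h1 := (hz.2 k).le
      refine (div_le_self (norm_nonneg _) hR1).trans h1)
  refine ⟨fun k z => g k.succ z / ((R : ℝ) : ℂ), g 0, fun k => Pool.Agent.Y263.GF.ddiv (hg _) _,
    hg 0, fun k z hz => ?_, fun z hz => (hgb 0 z hz).trans (le_abs_self C), fun z hz => ?_⟩
  · beta_reduce
    rw [norm_div, hRn]
    exact (div_le_self (norm_nonneg _) hR1).trans ((hgb _ z hz).trans (le_abs_self C))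
  · have h1 := hid z hz
    rw [Fin.sum_univ_succ] at h1
    simp only [Fin.cons_zero, Fin.cons_succ] at h1
    rw [add_comm, ← h1]
    congr 1
    refine Finset.sum_congr rfl fun k _ => ?_
    ring

end Pool.Agent.Helper59K9.Cor
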